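import Pool.Agent.helper21.KBR3.Chart

/-!
Module A1: the first variation formula up to the boundary.
-/

noncomputable section

namespace KBR

open Set MeasureTheory Filter Topology
open scoped ContDiff RealInnerProductSpace

variable {n : ℕ}

namespace EV

variable {G : E n → E n →L[ℝ] E n} {a : E n} {e L : E n → E n}

/-- the end point of the geodesic is in `M` -/
lemma e_mem (h1 : ∀ c v, IsGeod G 1 c v → c 0 = a → c 1 = e (v 0)) {w : E n}
    (hw : w ∈ expDom G a) : e w ∈ M n := by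
  obtain ⟨c, v, hg, hc0, rfl⟩ := hw
  rw [← h1 c v hg hc0]
  exact hg.mem 1 ⟨zero_le_one, le_refl _⟩

lemma expDom_eq_image (h1 : ∀ c v, IsGeod G 1 c v → c 0 = a → c 1 = e (v 0))
    (h2 : ∀ y ∈ M n, L y ∈ expDom G a ∧ e (L y) = y) (h3 : ∀ w ∈ expDom G a, L (e w) = w) :
    expDom G a = L '' M n := by
  ext w
  constructor
  · intro hw
    exact ⟨e w, e_mem h1 hw, h3 w hw⟩
  · rintro ⟨y, hy, rfl⟩
    exact (h2 y hy).1

/-- `De (L y) ∘ DL y = id` -/
lemma left_inv (he : ContDiffOn ℝ ∞ e (expDom G a)) (hL : ContDiffOn ℝ ∞ L (M n))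
    (h2 : ∀ y ∈ M n, L y ∈ expDom G a ∧ e (L y) = y) {y : E n} (hy : y ∈ M n) (v : E n) :
    fderivWithin ℝ e (expDom G a) (L y) (fderivWithin ℝ L (M n) y v) = v := by
  have hLd : HasFDerivWithinAt L (fderivWithin ℝ L (M n) y) (M n) y :=
    ((hL.differentiableOn (by simp)) y hy).hasFDerivWithinAt
  have hed : HasFDerivWithinAt e (fderivWithin ℝ e (expDom G a) (L y)) (expDom G a) (L y) :=
    ((he.differentiableOn (by simp)) (L y) (h2 y hy).1).hasFDerivWithinAt
  have hc : HasFDerivWithinAt (fun z => e (L z))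
      ((fderivWithin ℝ e (expDom G a) (L y)).comp (fderivWithin ℝ L (M n) y)) (M n) y :=
    hed.comp y hLd (fun z hz => (h2 z hz).1)
  have hid : HasFDerivWithinAt (fun z => e (L z)) (ContinuousLinearMap.id ℝ (E n)) (M n) y :=
    (hasFDerivWithinAt_id y (M n)).congr (fun z hz => (h2 z hz).2) (h2 y hy).2
  have h4 := (uniqueDiffOn_M y hy).eq hc hid
  have h5 := congrArg (fun A : E n →L[ℝ] E n => A v) h4
  simpa using h5

lemma uniqueDiffOn_expDom (h1 : ∀ c v, IsGeod G 1 c v → c 0 = a → c 1 = e (v 0))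
    (he : ContDiffOn ℝ ∞ e (expDom G a)) (hL : ContDiffOn ℝ ∞ L (M n))
    (h2 : ∀ y ∈ M n, L y ∈ expDom G a ∧ e (L y) = y) (h3 : ∀ w ∈ expDom G a, L (e w) = w) :
    UniqueDiffOn ℝ (expDom G a) := by
  rw [expDom_eq_image h1 h2 h3]
  refine UniqueDiffOn.image (f' := fderivWithin ℝ L (M n)) uniqueDiffOn_M (fun y hy =>
    ((hL.differentiableOn (by simp)) y hy).hasFDerivWithinAt) ?_
  intro y hy
  have hinj : Function.Injective ((fderivWithin ℝ L (M n) y : E n →L[ℝ] E n) : E n →ₗ[ℝ] E n) := by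
    intro v w hvw
    have hvw' : fderivWithin ℝ L (M n) y v = fderivWithin ℝ L (M n) y w := hvw
    rw [← left_inv he hL h2 hy v, hvw', left_inv he hL h2 hy w]
  have hsurj := LinearMap.injective_iff_surjective.1 hinj
  exact Function.Surjective.denseRange hsurj

end EV

/-- MODULE A1 (`end_vel`): first variation formula up to the boundary. -/
theorem end_vel {G : E n → E n →L[ℝ] E n} (hG : IsMetric G) {a : E n} {e L : E n → E n}
    (h1 : ∀ c v, IsGeod G 1 c v → c 0 = a → c 1 = e (v 0))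
    (he : ContDiffOn ℝ ∞ e (expDom G a)) (hL : ContDiffOn ℝ ∞ L (M n))
    (h2 : ∀ y ∈ M n, L y ∈ expDom G a ∧ e (L y) = y) (h3 : ∀ w ∈ expDom G a, L (e w) = w) :
    ∃ Y : E n → E n, ContinuousOn Y (M n) ∧
      (∀ c v, IsGeod G 1 c v → c 0 = a → v 1 = Y (c 1)) ∧
      ∀ y ∈ M n, ∀ u, fderivWithin ℝ (Sf G a L) (M n) y u = ⟪G y (Y y), u⟫ := by
  have hU := EV.uniqueDiffOn_expDom h1 he hL h2 h3
  set Y : E n → E n := fun y => fderivWithin ℝ e (expDom G a) (L y) (L y) with hY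
  have hLm : MapsTo L (M n) (expDom G a) := fun y hy => (h2 y hy).1
  have hYc : ContinuousOn Y (M n) :=
    ((he.continuousOn_fderivWithin hU (by simp)).comp hL.continuousOn hLm).clm_apply hL.continuousOn
  have hYv : ∀ c v, IsGeod G 1 c v → c 0 = a → v 1 = Y (c 1) := by
    intro c v hg hc0
    have h1m : (1 : ℝ) ∈ Icc (0 : ℝ) 1 := ⟨zero_le_one, le_refl _⟩
    have hv0 : L (c 1) = v 0 := by
      rw [h1 c v hg hc0]
      exact h3 _ ⟨c, v, hg, hc0, rfl⟩
    have hmem : v 0 ∈ expDom G a := ⟨c, v, hg, hc0, rfl⟩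
    have hed : HasFDerivWithinAt e (fderivWithin ℝ e (expDom G a) (v 0)) (expDom G a)
        ((fun t : ℝ => t • v 0) 1) := by
      simp only [one_smul]
      exact ((he.differentiableOn (by simp)) (v 0) hmem).hasFDerivWithinAt
    have hd : HasDerivWithinAt (fun t : ℝ => t • v 0) (v 0) (Icc 0 1) 1 := by
      simpa using ((hasDerivWithinAt_id (1 : ℝ) (Icc 0 1)).smul_const (v 0))
    have hm : MapsTo (fun t : ℝ => t • v 0) (Icc 0 1) (expDom G a) := fun t ht =>
      (ray_eq h1 hg hc0 ht).1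
    have h4 := HasFDerivWithinAt.comp_hasDerivWithinAt (f := fun t : ℝ => t • v 0) (1 : ℝ) hed hd hm
    have h5 : HasDerivWithinAt (e ∘ fun t : ℝ => t • v 0) (v 1) (Icc 0 1) 1 := by
      refine (hg.vel 1 h1m).congr (fun t ht => ?_) ?_
      · exact (ray_eq h1 hg hc0 ht).2.symm
      · exact (ray_eq h1 hg hc0 h1m).2.symm
    have h6 := (uniqueDiffOn_Icc one_pos 1 h1m).eq_deriv _ h5 h4
    rw [h6]
    show _ = fderivWithin ℝ e (expDom G a) (L (c 1)) (L (c 1))
    rw [hv0]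
  refine ⟨Y, hYc, hYv, ?_⟩
  -- interior points
  have hball : ∀ y ∈ Metric.ball (0 : E n) 1, ∀ u,
      fderivWithin ℝ (Sf G a L) (M n) y u = ⟪G y (Y y), u⟫ := by
    intro y hy u
    rw [fderivWithin_of_mem_nhds (M_mem_nhds hy)]
    obtain ⟨⟨c, v, hg, hc0, hv0⟩, hey⟩ := h2 y (ball_subset_M hy)
    rw [gauss hG h1 he hL h2 hy hg hc0 hv0 u]
    have hc1 : c 1 = y := by
      rw [h1 c v hg hc0, hv0, hey]
    rw [hYv c v hg hc0, hc1]
  intro y hy u
  -- approximate `y` by interior points `s • y`, `s ↑ 1`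
  have hyn : ‖y‖ ≤ 1 := by simpa [M] using hy
  have hmaps : ∀ s ∈ Ico (0 : ℝ) 1, s • y ∈ Metric.ball (0 : E n) 1 := by
    intro s hs
    rw [mem_ball_zero_iff, norm_smul, Real.norm_of_nonneg hs.1]
    calc s * ‖y‖ ≤ s * 1 := mul_le_mul_of_nonneg_left hyn hs.1
      _ < 1 := by linarith [hs.2]
  have hcont : ContinuousOn (fun s : ℝ => s • y) (Icc 0 1) := by fun_prop
  have hmapsM : MapsTo (fun s : ℝ => s • y) (Icc 0 1) (M n) := by
    intro s hs
    rw [M, mem_closedBall_zero_iff, norm_smul, Real.norm_of_nonneg hs.1]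
    exact mul_le_one₀ hs.2 (norm_nonneg _) hyn
  have hF : ContinuousOn (fun z => fderivWithin ℝ (Sf G a L) (M n) z u) (M n) :=
    (((Sf_contDiffOn (G := G) (x := a) hL).continuousOn_fderivWithin uniqueDiffOn_M
      (by simp)).clm_apply continuousOn_const)
  have hR : ContinuousOn (fun z => ⟪G z (Y z), u⟫) (M n) :=
    (hG.smooth.continuous.continuousOn.clm_apply hYc).inner continuousOn_const
  have hF1 := hF.comp hcont hmapsM
  have hR1 := hR.comp hcont hmapsM
  have h1mem : (1 : ℝ) ∈ Icc (0 : ℝ) 1 := ⟨zero_le_one, le_refl _⟩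
  have tF := (hF1 1 h1mem).tendsto.mono_left (nhdsWithin_mono _ (Ico_subset_Icc_self : Ico (0 : ℝ) 1 ⊆ Icc 0 1))
  have tR := (hR1 1 h1mem).tendsto.mono_left (nhdsWithin_mono _ (Ico_subset_Icc_self : Ico (0 : ℝ) 1 ⊆ Icc 0 1))
  haveI : NeBot (𝓝[Ico (0 : ℝ) 1] 1) := by
    rw [← mem_closure_iff_nhdsWithin_neBot, closure_Ico (by norm_num)]
    exact h1mem
  have h5 := tendsto_nhds_unique_of_eventuallyEq tF tR (by
    filter_upwards [self_mem_nhdsWithin] with s hs
    exact hball (s • y) (hmaps s hs) u)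
  simpa using h5

end KBR
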