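import Pool.Agent.helper21.KBR3.Chart

/-!
Module C2: correction of the second order jet of the Cauchy-Riemann operator of a function along
a hypersurface.
-/

noncomputable section

namespace KBR

open Set MeasureTheory Filter Topology
open scoped ContDiff RealInnerProductSpace

variable {n m : ℕ}

namespace SO

/-- derivative of the Cauchy-Riemann operator in the direction `v` -/
lemma hasFDerivAt_P {u : Cn m → ℂ} (hu : ContDiff ℝ ∞ u) (v y : Cn m) :
    HasFDerivAt (fun y => fderiv ℝ u y (Complex.I • v) - Complex.I * fderiv ℝ u y v)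
      (((fderiv ℝ (fderiv ℝ u) y).flip (Complex.I • v)) -
        Complex.I • ((fderiv ℝ (fderiv ℝ u) y).flip v)) y := by
  have h1 : ContDiff ℝ ∞ (fderiv ℝ u) := hu.fderiv_right (by simp)
  have h2 : HasFDerivAt (fderiv ℝ u) (fderiv ℝ (fderiv ℝ u) y) y :=
    ((h1.differentiable (by simp)) y).hasFDerivAt
  have h3 : ∀ w : Cn m, HasFDerivAt (fun y => fderiv ℝ u y w)
      ((fderiv ℝ (fderiv ℝ u) y).flip w) y := by
    intro w
    have h4 := h2.clm_apply (hasFDerivAt_const w y)
    have e : (fderiv ℝ u y).comp (0 : Cn m →L[ℝ] Cn m) + (fderiv ℝ (fderiv ℝ u) y).flip w =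
        (fderiv ℝ (fderiv ℝ u) y).flip w := by
      ext1 x
      simp
    rw [e] at h4
    exact h4
  have h5 := (h3 v).const_mul Complex.I
  exact (h3 (Complex.I • v)).sub h5

end SO

/-- MODULE C2 (`second_order`): correction of the second order jet of `∂̄u`. -/
theorem second_order (r : Cn m → ℝ) (N : Cn m → Cn m) (u : Cn m → ℂ) (S : Set (Cn m))
    (hr : ContDiff ℝ ∞ r) (hN : ContDiff ℝ ∞ N) (hu : ContDiff ℝ ∞ u)
    (hr0 : ∀ z ∈ S, r z = 0) (hN1 : ∀ z ∈ S, fderiv ℝ r z (N z) = 1)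
    (hT : ∀ g : Cn m → ℂ, ContDiff ℝ ∞ g → (∀ z ∈ S, g z = 0) → ∀ z ∈ S, ∀ v,
      fderiv ℝ g z v = (fderiv ℝ r z v : ℂ) * fderiv ℝ g z (N z))
    (hu0 : ∀ z ∈ S, ∀ v, fderiv ℝ u z (Complex.I • v) = Complex.I * fderiv ℝ u z v) :
    ∃ u' : Cn m → ℂ, ContDiff ℝ ∞ u' ∧ ∀ z ∈ S, u' z = u z ∧ fderiv ℝ u' z = fderiv ℝ u z ∧
      ∀ v, fderiv ℝ (fun y => fderiv ℝ u' y (Complex.I • v) - Complex.I * fderiv ℝ u' y v) z = 0 := by
  -- smoothness of derivatives
  have hdu : ContDiff ℝ ∞ (fderiv ℝ u) := hu.fderiv_right (by simp)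
  have hddu : ContDiff ℝ ∞ (fderiv ℝ (fderiv ℝ u)) := hdu.fderiv_right (by simp)
  have hdr : ContDiff ℝ ∞ (fderiv ℝ r) := hr.fderiv_right (by simp)
  have hIN : ContDiff ℝ ∞ (fun y => Complex.I • N y) := by
    have h := (ContinuousLinearMap.contDiff
      ((Complex.I • ContinuousLinearMap.id ℂ (Cn m)).restrictScalars ℝ) (n := ∞)).comp hN
    exact h
  have hσ : ContDiff ℝ ∞ (fun y => fderiv ℝ r y (Complex.I • N y)) := hdr.clm_apply hIN
  set σ : Cn m → ℝ := fun y => fderiv ℝ r y (Complex.I • N y) with hσdef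
  set V0 : Cn m → ℂ := fun y =>
    (fderiv ℝ (fderiv ℝ u) y (N y) (Complex.I • N y) -
      Complex.I * fderiv ℝ (fderiv ℝ u) y (N y) (N y)) *
      (((σ y ^ 2 + 1)⁻¹ : ℝ) * ((σ y : ℂ) + Complex.I)) with hV0def
  have hofR : ContDiff ℝ ∞ (fun x : ℝ => (x : ℂ)) := Complex.ofRealCLM.contDiff
  have hV0 : ContDiff ℝ ∞ V0 := by
    have h1 : ContDiff ℝ ∞ (fun y => fderiv ℝ (fderiv ℝ u) y (N y)) := hddu.clm_apply hN
    have h2 : ContDiff ℝ ∞ (fun y => fderiv ℝ (fderiv ℝ u) y (N y) (Complex.I • N y)) :=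
      h1.clm_apply hIN
    have h3 : ContDiff ℝ ∞ (fun y => fderiv ℝ (fderiv ℝ u) y (N y) (N y)) := h1.clm_apply hN
    have h4 : ContDiff ℝ ∞ (fun y => (σ y ^ 2 + 1)⁻¹) := by
      refine ContDiff.inv ((hσ.pow 2).add contDiff_const) ?_
      intro y
      positivity
    exact (h2.sub (contDiff_const.mul h3)).mul ((hofR.comp h4).mul ((hofR.comp hσ).add contDiff_const))
  have hrC : ContDiff ℝ ∞ (fun y => (r y : ℂ)) := hofR.comp hr
  set u' : Cn m → ℂ := fun y => u y - (1 / 2 : ℂ) * (r y : ℂ) ^ 2 * V0 y with hu'def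
  have hu' : ContDiff ℝ ∞ u' := hu.sub ((contDiff_const.mul (hrC.pow 2)).mul hV0)
  -- derivative of `r` as a complex function
  have hrd : ∀ y, HasFDerivAt (fun y => (r y : ℂ)) (Complex.ofRealCLM.comp (fderiv ℝ r y)) y := by
    intro y
    have h1 : HasFDerivAt r (fderiv ℝ r y) y := ((hr.differentiable (by simp)) y).hasFDerivAt
    exact Complex.ofRealCLM.hasFDerivAt.comp y h1
  have hV0d : ∀ y, HasFDerivAt V0 (fderiv ℝ V0 y) y := fun y =>
    ((hV0.differentiable (by simp)) y).hasFDerivAt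
  have hud : ∀ y, HasFDerivAt u (fderiv ℝ u y) y := fun y =>
    ((hu.differentiable (by simp)) y).hasFDerivAt
  have hu'd : ∀ y v, fderiv ℝ u' y v = fderiv ℝ u y v -
      (r y : ℂ) * ((fderiv ℝ r y v : ℂ) * V0 y + (1 / 2 : ℂ) * (r y : ℂ) * fderiv ℝ V0 y v) := by
    intro y v
    have h1 := (hud y).sub ((((hrd y).pow 2).const_mul (1 / 2 : ℂ)).mul (hV0d y))
    have h2 : fderiv ℝ u' y = _ := h1.fderiv
    rw [h2]
    simp
    ring
  refine ⟨u', hu', ?_⟩
  intro z hz
  have hrz := hr0 z hz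
  refine ⟨by simp [hu'def, hrz], ?_, ?_⟩
  · ext1 v
    rw [hu'd, hrz]
    simp
  · intro v
    -- `P w` : the Cauchy-Riemann operator of `u`
    have hP : ∀ w x, fderiv ℝ (fun y => fderiv ℝ u y (Complex.I • w) - Complex.I * fderiv ℝ u y w) z x
        = fderiv ℝ (fderiv ℝ u) z x (Complex.I • w) -
          Complex.I * fderiv ℝ (fderiv ℝ u) z x w := by
      intro w x
      rw [(SO.hasFDerivAt_P hu w z).fderiv]
      simp
    have hPs : ∀ w, ContDiff ℝ ∞ (fun y => fderiv ℝ u y (Complex.I • w) - Complex.I * fderiv ℝ u y w) := by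
      intro w
      exact (hdu.clm_apply contDiff_const).sub (contDiff_const.mul (hdu.clm_apply contDiff_const))
    -- the normal derivatives
    set b : Cn m → ℂ := fun w => fderiv ℝ (fderiv ℝ u) z (N z) (Complex.I • w) -
          Complex.I * fderiv ℝ (fderiv ℝ u) z (N z) w with hb
    have hPT : ∀ w x, fderiv ℝ (fderiv ℝ u) z x (Complex.I • w) -
          Complex.I * fderiv ℝ (fderiv ℝ u) z x w = (fderiv ℝ r z x : ℂ) * b w := by
      intro w x
      rw [← hP w x, hT _ (hPs w) (fun y hy => by rw [hu0 y hy w, sub_self]) z hz x, hP w (N z)]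
    -- symmetry of the second derivative
    have hsymm : ∀ x y, fderiv ℝ (fderiv ℝ u) z x y = fderiv ℝ (fderiv ℝ u) z y x := by
      have h1 : ContDiffAt ℝ ∞ u z := hu.contDiffAt
      have h2 := h1.isSymmSndFDerivAt (by
        rw [minSmoothness_of_isRCLikeNormedField]
        exact WithTop.coe_le_coe.2 le_top)
      intro x y
      exact h2 x y
    set ρ : Cn m → ℂ := fun w => (fderiv ℝ r z (Complex.I • w) : ℂ) -
      Complex.I * (fderiv ℝ r z w : ℂ) with hρ
    have hbr : ∀ x y, b x * ρ y = b y * ρ x := by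
      intro x y
      have e1 := hPT x (Complex.I • y)
      have e2 := hPT x y
      have e3 := hPT y (Complex.I • x)
      have e4 := hPT y x
      have s1 := hsymm (Complex.I • y) (Complex.I • x)
      have s2 := hsymm (Complex.I • y) x
      have s3 := hsymm y (Complex.I • x)
      have s4 := hsymm y x
      simp only [hρ]
      rw [s1, s2] at e1
      rw [s3, s4] at e2
      linear_combination (-1 : ℂ) * e1 + Complex.I * e2 + e3 - Complex.I * e4
    have hρN : ρ (N z) = (σ z : ℂ) - Complex.I := by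
      simp only [hρ, hσdef, hN1 z hz]
      simp
    have hne : (σ z : ℂ) - Complex.I ≠ 0 := by
      intro h
      have := congrArg Complex.im h
      simp at this
    have hV0z : V0 z * ((σ z : ℂ) - Complex.I) = b (N z) := by
      have h1 : ((σ z : ℂ) + Complex.I) * ((σ z : ℂ) - Complex.I) = ((σ z ^ 2 + 1 : ℝ) : ℂ) := by
        push_cast
        linear_combination (-1 : ℂ) * Complex.I_sq
      have h2 : ((σ z ^ 2 + 1 : ℝ) : ℂ) ≠ 0 := by
        norm_cast
        positivity
      simp only [hV0def, hb]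
      rw [mul_assoc, mul_assoc, h1]
      push_cast
      push_cast at h2
      field_simp
    have hV0v : V0 z * ρ v = b v := by
      have h1 := hbr v (N z)
      rw [hρN] at h1
      apply mul_right_cancel₀ hne
      rw [h1, ← hV0z]
      ring
    -- the function of the claim
    set A : Cn m → ℂ := fun y => ((fderiv ℝ r y (Complex.I • v) : ℂ) -
      Complex.I * (fderiv ℝ r y v : ℂ)) * V0 y + (1 / 2 : ℂ) * (r y : ℂ) *
        (fderiv ℝ V0 y (Complex.I • v) - Complex.I * fderiv ℝ V0 y v) with hA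
    have hfun : (fun y => fderiv ℝ u' y (Complex.I • v) - Complex.I * fderiv ℝ u' y v) =
        fun y => (fderiv ℝ u y (Complex.I • v) - Complex.I * fderiv ℝ u y v) - (r y : ℂ) * A y := by
      funext y
      rw [hu'd, hu'd, hA]
      ring
    have hAs : DifferentiableAt ℝ A z := by
      have hdV : ContDiff ℝ ∞ (fderiv ℝ V0) := hV0.fderiv_right (by simp)
      have h1 : ContDiff ℝ ∞ A := by
        refine (((hofR.comp (hdr.clm_apply contDiff_const)).sub
          (contDiff_const.mul (hofR.comp (hdr.clm_apply contDiff_const)))).mul hV0).add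
          ((contDiff_const.mul hrC).mul ((hdV.clm_apply contDiff_const).sub
            (contDiff_const.mul (hdV.clm_apply contDiff_const))))
      exact (h1.differentiable (by simp)) z
    have hAz : A z = b v := by
      rw [hA]
      simp only [hrz]
      rw [← hV0v, hρ]
      simp
      ring
    rw [hfun]
    have h1 := (SO.hasFDerivAt_P hu v z).sub ((hrd z).mul hAs.hasFDerivAt)
    have h3 : fderiv ℝ (fun y => (fderiv ℝ u y (Complex.I • v) - Complex.I * fderiv ℝ u y v) -
      (r y : ℂ) * A y) z = _ := h1.fderiv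
    rw [h3]
    ext1 x
    have h2 := hPT v x
    simp only [hrz, hAz]
    simp
    rw [h2]
    ring

end KBR
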